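import Pool.Agent.H563.TW.Hit

/-!
# Thin sets from dyadic blocks, for every member of a sequence of sets
-/

set_option autoImplicit false

namespace Pool.Agent.H563.AP

open Finset
open scoped Classical

/-- the large elements of a set of numbers up to `2 ^ j` -/
noncomputable def big (j : ℕ) (A : Finset ℕ) : Finset ℕ := A.filter (fun p => 2 ^ j < p * p)

lemma small_card (j : ℕ) (A : Finset ℕ) (hA : ∀ p ∈ A, 1 ≤ p) :
    ((A.filter (fun p => ¬ 2 ^ j < p * p)).card : ℝ) ≤ Real.exp (Real.log 2 * j / 2) := by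
  have h1 : (A.filter (fun p => ¬ 2 ^ j < p * p)) ⊆ Icc 1 (Nat.sqrt (2 ^ j)) := by
    intro p hp
    rw [mem_filter] at hp
    rw [mem_Icc]
    exact ⟨hA p hp.1, Nat.le_sqrt.2 (not_lt.1 hp.2)⟩
  have h2 := card_le_card h1
  rw [Nat.card_Icc, Nat.add_sub_cancel] at h2
  have h3 : (Nat.sqrt (2 ^ j) : ℝ) ≤ Real.exp (Real.log 2 * j / 2) := by
    have h4 : ((Nat.sqrt (2 ^ j) : ℕ) : ℝ) ^ 2 ≤ (2 : ℝ) ^ j := by
      have := Nat.sqrt_le' (2 ^ j)
      exact_mod_cast this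
    have h5 : (2 : ℝ) ^ j = Real.exp (Real.log 2 * j / 2) ^ 2 := by
      rw [← Real.exp_nat_mul]
      have : ((2 : ℕ) : ℝ) * (Real.log 2 * j / 2) = Real.log 2 * j := by push_cast; ring
      rw [this, mul_comm, Real.exp_nat_mul, Real.exp_log (by norm_num)]
    rw [h5] at h4
    exact le_of_sq_le_sq' h4 (Real.exp_pos _).le
  calc ((A.filter (fun p => ¬ 2 ^ j < p * p)).card : ℝ) ≤ (Nat.sqrt (2 ^ j) : ℝ) := by exact_mod_cast h2
    _ ≤ _ := h3
where
  le_of_sq_le_sq' {a b : ℝ} (h : a ^ 2 ≤ b ^ 2) (hb : 0 ≤ b) : a ≤ b := abs_le_of_sq_le_sq' h hb |>.2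

/-- one block -/
lemma block {δ : ℝ} (hδ0 : 0 < δ) (hδ1 : δ ≤ 1) (j : ℕ) (A G : Finset ℕ) (R : ℕ → ℕ → Prop)
    (hG : (G.card : ℝ) ≤ 2 ^ j) (hgood : ∀ N ∈ G, 2 * δ * A.card ≤ ((A.filter (R N)).card : ℝ))
    (hsmall : ((A.filter (fun p => ¬ 2 ^ j < p * p)).card : ℝ) ≤ δ / 2 * A.card)
    (hbig : 16 / δ * j + 1 ≤ δ / 4 * A.card) :
    ∃ S ⊆ big j A, (S.card : ℝ) ≤ 16 / δ * j + 1 ∧ ∀ N ∈ G, j ≤ (S.filter (R N)).card := by
  have hk1 : (16 / δ * j : ℝ) ≤ ⌈16 / δ * (j : ℝ)⌉₊ := Nat.le_ceil _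
  have hk2 : (⌈16 / δ * (j : ℝ)⌉₊ : ℝ) ≤ 16 / δ * j + 1 := (Nat.ceil_lt_add_one (by positivity)).le
  have hsplit : (A.card : ℝ) = (big j A).card + (A.filter (fun p => ¬ 2 ^ j < p * p)).card := by
    unfold big
    exact_mod_cast (card_filter_add_card_filter_not (fun p => 2 ^ j < p * p)).symm
  have hA0 : (0 : ℝ) ≤ A.card := by positivity
  have hbc : (A.card : ℝ) / 2 ≤ (big j A).card := by
    have : δ / 2 * (A.card : ℝ) ≤ 1 / 2 * A.card := mul_le_mul_of_nonneg_right (by linarith) hA0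
    linarith
  obtain ⟨S, hS1, hS2, hS3⟩ := Pool.Agent.H563.TW.hits (big j A) G (fun N => (big j A).filter (R N)) δ j hδ0 hδ1
    (by positivity) (fun N _ => filter_subset _ _) (by
      intro N hN
      have h1 := hgood N hN
      have h2 : (A.filter (R N)).card ≤ ((big j A).filter (R N)).card +
          (A.filter (fun p => ¬ 2 ^ j < p * p)).card := by
        refine (card_le_card ?_).trans (card_union_le _ _)
        intro p hp
        rw [mem_filter] at hp
        unfold big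
        rw [mem_union, mem_filter, mem_filter, mem_filter]
        by_cases h : 2 ^ j < p * p
        · exact Or.inl ⟨⟨hp.1, h⟩, hp.2⟩
        · exact Or.inr ⟨hp.1, h⟩
      have h2' : ((A.filter (R N)).card : ℝ) ≤ ((big j A).filter (R N)).card +
          (A.filter (fun p => ¬ 2 ^ j < p * p)).card := by exact_mod_cast h2
      have h3 : δ * ((big j A).card : ℝ) ≤ δ * A.card := by
        apply mul_le_mul_of_nonneg_left _ hδ0.le
        have : (0 : ℝ) ≤ ((A.filter (fun p => ¬ 2 ^ j < p * p)).card : ℝ) := by positivity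
        linarith
      nlinarith)
    ⌈16 / δ * (j : ℝ)⌉₊ (by
      calc (⌈16 / δ * (j : ℝ)⌉₊ : ℝ) ≤ 16 / δ * j + 1 := hk2
        _ ≤ δ / 4 * A.card := hbig
        _ = δ / 2 * (A.card / 2) := by ring
        _ ≤ δ / 2 * (big j A).card := mul_le_mul_of_nonneg_left hbc (by positivity))
    (by
      have h1 : (G.card : ℝ) ≤ Real.exp j := by
        refine hG.trans ?_
        have h2 : (2 : ℝ) ≤ Real.exp 1 := by
          have := Real.add_one_le_exp (1 : ℝ)
          linarith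
        calc (2 : ℝ) ^ j ≤ (Real.exp 1) ^ j := pow_le_pow_left₀ (by norm_num) h2 j
          _ = Real.exp j := by rw [← Real.exp_nat_mul, mul_one]
      have h3 : 4 * (j : ℝ) ≤ δ / 4 * ⌈16 / δ * (j : ℝ)⌉₊ := by
        calc 4 * (j : ℝ) = δ / 4 * (16 / δ * j) := by
              field_simp
              ring
          _ ≤ _ := mul_le_mul_of_nonneg_left hk1 (by positivity)
      have hj0 : (0 : ℝ) ≤ j := by positivity
      calc (G.card : ℝ) * Real.exp (-(δ / 4 * ⌈16 / δ * (j : ℝ)⌉₊))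
          ≤ Real.exp j * Real.exp (-(4 * (j : ℝ))) := by
            apply mul_le_mul h1 (Real.exp_le_exp.2 (by linarith)) (Real.exp_pos _).le (Real.exp_pos _).le
        _ = Real.exp (j + -(4 * (j : ℝ))) := (Real.exp_add _ _).symm
        _ ≤ Real.exp (-(j : ℝ)) := Real.exp_le_exp.2 (by linarith))
  refine ⟨S, hS1, by rw [hS2]; exact hk2, fun N hN => ?_⟩
  have h1 := hS3 N hN
  have h2 : S ∩ (big j A).filter (R N) ⊆ S.filter (R N) := by
    intro p hp
    rw [mem_inter, mem_filter] at hp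
    rw [mem_filter]
    exact ⟨hp.1, hp.2.2⟩
  have h3 : (j : ℝ) ≤ (S.filter (R N)).card := h1.trans (by exact_mod_cast card_le_card h2)
  exact_mod_cast h3

/-- the union of the blocks is thin -/
lemma count {κ : ℝ} (hκ : 0 ≤ κ) (S : ℕ → Finset ℕ) (hS1 : ∀ j, ∀ p ∈ S j, 2 ^ j < p * p)
    (hS2 : ∀ j, ((S j).card : ℝ) ≤ κ * (j + 1)) (x : ℕ) (hx : 2 ≤ x) :
    ({q | (∃ j, q ∈ S j) ∧ q ≤ x}.ncard : ℝ) ≤ 24 * κ * (Real.log x) ^ 2 := by
  obtain ⟨J, hJ⟩ : ∃ J, J = Nat.log 2 (x * x) := ⟨_, rfl⟩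
  have hsub : {q | (∃ j, q ∈ S j) ∧ q ≤ x} ⊆ (((range (J + 1)).biUnion S : Finset ℕ) : Set ℕ) := by
    rintro q ⟨⟨j, hj⟩, hq⟩
    rw [mem_coe, mem_biUnion]
    refine ⟨j, ?_, hj⟩
    rw [mem_range, hJ]
    have h1 := hS1 j q hj
    have h2 : 2 ^ j ≤ x * x := h1.le.trans (Nat.mul_le_mul hq hq)
    have := Nat.le_log_of_pow_le (by norm_num) h2
    omega
  have h1 := Set.ncard_le_ncard hsub (finite_toSet _)
  rw [Set.ncard_coe_finset] at h1
  have h2 : (((range (J + 1)).biUnion S).card : ℝ) ≤ ∑ j ∈ range (J + 1), ((S j).card : ℝ) := by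
    exact_mod_cast card_biUnion_le
  have h3 : ∑ j ∈ range (J + 1), ((S j).card : ℝ) ≤ (J + 1) * (κ * (J + 1)) := by
    calc ∑ j ∈ range (J + 1), ((S j).card : ℝ) ≤ ∑ _j ∈ range (J + 1), κ * (J + 1) := by
          apply sum_le_sum
          intro j hj
          refine (hS2 j).trans ?_
          apply mul_le_mul_of_nonneg_left _ hκ
          have : (j : ℝ) ≤ J := by exact_mod_cast Nat.lt_succ_iff.1 (mem_range.1 hj)
          linarith
      _ = (J + 1) * (κ * (J + 1)) := by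
          rw [sum_const, card_range, nsmul_eq_mul]
          push_cast
          ring
  have hxr : (2 : ℝ) ≤ x := by exact_mod_cast hx
  have hlx : Real.log 2 ≤ Real.log x := Real.log_le_log (by norm_num) hxr
  have hl2 := Real.log_two_gt_d9
  have hJ1 : (J : ℝ) * Real.log 2 ≤ 2 * Real.log x := by
    have h4 : 2 ^ J ≤ x * x := by
      rw [hJ]
      exact Nat.pow_log_le_self 2 (by positivity)
    have h5 : (2 : ℝ) ^ J ≤ (x : ℝ) * x := by exact_mod_cast h4
    have h6 := Real.log_le_log (by positivity) h5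
    rw [Real.log_pow, Real.log_mul (by positivity) (by positivity)] at h6
    linarith
  have hJ0 : (0 : ℝ) ≤ J := by positivity
  have hJ2 : (J : ℝ) + 1 ≤ 4.8 * Real.log x := by nlinarith
  calc ({q | (∃ j, q ∈ S j) ∧ q ≤ x}.ncard : ℝ) ≤ (((range (J + 1)).biUnion S).card : ℝ) := by exact_mod_cast h1
    _ ≤ (J + 1) * (κ * (J + 1)) := h2.trans h3
    _ = κ * ((J + 1) * (J + 1)) := by ring
    _ ≤ κ * ((4.8 * Real.log x) * (4.8 * Real.log x)) := by
        apply mul_le_mul_of_nonneg_left _ hκ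
        apply mul_le_mul hJ2 hJ2 (by positivity) (by linarith)
    _ ≤ 24 * κ * (Real.log x) ^ 2 := by
        have : 0 ≤ κ * (Real.log x) ^ 2 := by positivity
        nlinarith

end Pool.Agent.H563.AP
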