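import Pool.Agent.H563.AP.Sub

/-!
# Thin subsets of arbitrary dense sets of primes: the choice
-/

set_option autoImplicit false

namespace Pool.Agent.H563.AP

open Finset Filter Topology
open scoped Classical

lemma rpow_cast (j : ℕ) (s : ℝ) : ((2 ^ j : ℕ) : ℝ) ^ s = (2 : ℝ) ^ (s * j) := by
  push_cast
  rw [← Real.rpow_natCast, ← Real.rpow_mul (by norm_num)]
  congr 1
  ring

/-- one scale: few numbers with few representations -/
lemma one_scale {ε c C η₀ η : ℝ} (hη : 0 < η) (hη0 : 4 * η ≤ η₀) (hη1 : η ≤ 1 / 4)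
    (hin : ∀ X : ℕ, 2 ≤ X → ∀ A : Finset ℕ,
      (∀ p ∈ A, p.Prime ∧ p ≤ X) → (X : ℝ) ^ (1 - η₀) ≤ A.card →
      (((Ioc X (2 * X)).filter (fun N : ℕ => ((A.filter (RX ε X N)).card : ℝ) < c * A.card)).card : ℝ) ≤
        C * (X / (A.card * Real.log X))) {E : ℕ} (hE : (1 : ℝ) / E ≤ η) {A : Set ℕ} (hA : ∀ p ∈ A, p.Prime)
    {i j : ℕ} (hj : 2 ≤ j) (hij : i ≤ j) (hji : j ≤ i + j / E) (hcard : (2 : ℝ) ^ ((1 - η) * (i : ℝ)) ≤ (AA A i).card) :
    (((Ioc (2 ^ j) (2 * 2 ^ j)).filter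
      (fun N : ℕ => (((AA A i).filter (RX ε (2 ^ j) N)).card : ℝ) < c * (AA A i).card)).card : ℝ) ≤
        |C| * (2 : ℝ) ^ (2 * η * (j : ℝ)) := by
  have hj0 : (0 : ℝ) ≤ j := by positivity
  have h1 : (j : ℝ) * (1 - η) ≤ i := by
    have h2 : ((j / E : ℕ) : ℝ) ≤ (j : ℝ) / E := Nat.cast_div_le
    have h3 : (j : ℝ) ≤ i + ((j / E : ℕ) : ℝ) := by exact_mod_cast hji
    have h4 : (j : ℝ) / E ≤ j * η := by
      calc (j : ℝ) / E = j * (1 / E) := by ring
        _ ≤ j * η := mul_le_mul_of_nonneg_left hE hj0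
    linarith
  have h2 : (1 - 2 * η) * (j : ℝ) ≤ (1 - η) * i := by
    have h3 : (1 - η) * ((j : ℝ) * (1 - η)) ≤ (1 - η) * i := mul_le_mul_of_nonneg_left h1 (by linarith)
    nlinarith [mul_nonneg hj0 (sq_nonneg η)]
  have h3 := hin (2 ^ j) (by
    calc 2 = 2 ^ 1 := by norm_num
      _ ≤ 2 ^ j := Nat.pow_le_pow_right (by norm_num) (by omega)) (AA A i) (by
    intro p hp
    unfold AA at hp
    rw [mem_filter, mem_Icc] at hp
    exact ⟨hA p hp.2, hp.1.2.trans (Nat.pow_le_pow_right (by norm_num) hij)⟩) (by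
    rw [rpow_cast]
    refine le_trans ?_ hcard
    apply Real.rpow_le_rpow_of_exponent_le (by norm_num)
    nlinarith)
  refine h3.trans ?_
  have hpos : (0 : ℝ) < (AA A i).card := lt_of_lt_of_le (Real.rpow_pos_of_pos (by norm_num) _) hcard
  have hlog : 1 ≤ Real.log ((2 ^ j : ℕ) : ℝ) := by
    push_cast
    rw [Real.log_pow]
    have := Real.log_two_gt_d9
    have hj2 : (2 : ℝ) ≤ j := by exact_mod_cast hj
    nlinarith
  have h4 : ((2 ^ j : ℕ) : ℝ) / ((AA A i).card * Real.log ((2 ^ j : ℕ) : ℝ)) ≤ (2 : ℝ) ^ (2 * η * (j : ℝ)) := by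
    rw [div_le_iff₀ (by positivity)]
    have h5 : ((2 ^ j : ℕ) : ℝ) = (2 : ℝ) ^ (2 * η * (j : ℝ)) * (2 : ℝ) ^ ((1 - 2 * η) * (j : ℝ)) := by
      rw [← Real.rpow_add (by norm_num)]
      have h6 : 2 * η * (j : ℝ) + (1 - 2 * η) * j = j := by ring
      rw [h6, Real.rpow_natCast]
      push_cast
      rfl
    obtain ⟨L, hL⟩ : ∃ L, L = Real.log ((2 ^ j : ℕ) : ℝ) := ⟨_, rfl⟩
    rw [← hL] at hlog ⊢
    rw [h5]
    apply mul_le_mul_of_nonneg_left _ (Real.rpow_pos_of_pos (by norm_num) _).le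
    calc (2 : ℝ) ^ ((1 - 2 * η) * (j : ℝ)) ≤ (2 : ℝ) ^ ((1 - η) * (i : ℝ)) :=
          Real.rpow_le_rpow_of_exponent_le (by norm_num) h2
      _ ≤ (AA A i).card := hcard
      _ = (AA A i).card * 1 := (mul_one _).symm
      _ ≤ (AA A i).card * L := mul_le_mul_of_nonneg_left hlog hpos.le
  have h5 : 0 ≤ ((2 ^ j : ℕ) : ℝ) / ((AA A i).card * Real.log ((2 ^ j : ℕ) : ℝ)) := by positivity
  calc C * (((2 ^ j : ℕ) : ℝ) / ((AA A i).card * Real.log ((2 ^ j : ℕ) : ℝ)))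
      ≤ |C| * (((2 ^ j : ℕ) : ℝ) / ((AA A i).card * Real.log ((2 ^ j : ℕ) : ℝ))) :=
        mul_le_mul_of_nonneg_right (le_abs_self C) h5
    _ ≤ _ := mul_le_mul_of_nonneg_left h4 (abs_nonneg C)

/-- the final computation -/
lemma final {δ : ℝ} (hδ1 : δ ≤ 1) {E K₁ i₀ j N n : ℕ} (hE : 0 < E) (hK₁0 : 0 < K₁)
    (hK₁ : (1 - δ / 4) ^ K₁ < 1 / 32) (hδ : 0 < δ) (hj : 2 ≤ j) (hi : i₀ + j / E ≤ j) (hN : N ≤ 2 ^ (j + 1))
    (hsc : sc N = j)
    (h : (1 / 2 : ℝ) ^ n ≤ (N + 1) * (N + 2) * (1 - δ / 4) ^ (nn E (E * K₁) i₀ N (E * K₁ * (j + 1 - i₀)))) :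
    j ≤ n := by
  have h1 := nn_low (E := E) (K := E * K₁) (i₀ := i₀) (N := N) (by positivity) (by rw [hsc]; exact hi)
  rw [hsc] at h1
  have hρ0 : 0 ≤ 1 - δ / 4 := by linarith
  have hρ1 : 1 - δ / 4 ≤ 1 := by linarith
  have h2 : j ≤ E * (j / E + 1) := (Nat.lt_mul_div_succ j hE).le
  have h3 : (1 - δ / 4) ^ (nn E (E * K₁) i₀ N (E * K₁ * (j + 1 - i₀))) ≤ (1 / 32 : ℝ) ^ j := by
    calc (1 - δ / 4) ^ (nn E (E * K₁) i₀ N (E * K₁ * (j + 1 - i₀))) ≤ (1 - δ / 4) ^ (K₁ * j) := by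
          apply pow_le_pow_of_le_one hρ0 hρ1
          refine le_trans ?_ h1
          calc K₁ * j ≤ K₁ * (E * (j / E + 1)) := Nat.mul_le_mul_left _ h2
            _ = E * K₁ * (j / E + 1) := by ring
      _ = ((1 - δ / 4) ^ K₁) ^ j := pow_mul _ _ _
      _ ≤ (1 / 32 : ℝ) ^ j := pow_le_pow_left₀ (pow_nonneg hρ0 _) hK₁.le j
  have h4 : ((N : ℝ) + 1) * (N + 2) ≤ 16 ^ j := by
    have h5 : N + 2 ≤ 4 ^ j := by
      have h6 : 2 ^ (j + 1) + 2 ≤ 4 ^ j := by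
        have h7 : 4 ^ j = 2 ^ j * 2 ^ j := by
          rw [← Nat.mul_pow]
        have h8 : 4 ≤ 2 ^ j := by
          calc 4 = 2 ^ 2 := by norm_num
            _ ≤ 2 ^ j := Nat.pow_le_pow_right (by norm_num) hj
        rw [h7, pow_succ]
        nlinarith
      omega
    have h6 : (N : ℝ) + 2 ≤ 4 ^ j := by exact_mod_cast h5
    calc ((N : ℝ) + 1) * (N + 2) ≤ 4 ^ j * 4 ^ j := by
          apply mul_le_mul (by linarith) h6 (by positivity) (by positivity)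
      _ = 16 ^ j := by rw [← mul_pow]; norm_num
  have h5 : (1 / 2 : ℝ) ^ n ≤ (1 / 2) ^ j := by
    calc (1 / 2 : ℝ) ^ n ≤ 16 ^ j * (1 / 32) ^ j := h.trans (mul_le_mul h4 h3 (pow_nonneg hρ0 _) (by positivity))
      _ = (1 / 2) ^ j := by rw [← mul_pow]; norm_num
  by_contra hcon
  push Not at hcon
  exact absurd h5 (not_le.2 (pow_lt_pow_right_of_lt_one₀ (by norm_num) (by norm_num) hcon))

theorem core (ε θ : ℝ) (hε : 0 < ε) (hθ : 0 < θ) : ∃ (K : ℕ) (η : ℝ), 0 < K ∧ 0 < η ∧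
    ∀ A : Set ℕ, (∀ p ∈ A, p.Prime) →
    (∀ᶠ y : ℕ in atTop, (y : ℝ) ^ (1 - η) ≤ {p | p ∈ A ∧ p ≤ y}.ncard) →
    ∃ (i₀ : ℕ) (f : ℕ → ℕ),
      (∀ t, f t ∈ A ∧ 2 ^ (i₀ + t / K) < f t * f t ∧ f t ≤ 2 ^ (i₀ + t / K)) ∧
      ∀ᶠ j : ℕ in atTop, i₀ ≤ j ∧ (((Ioc (2 ^ j) (2 ^ (j + 1))).filter (fun N =>
        ¬ j ≤ (((range (K * (j + 1 - i₀))).image f).filter (RX ε (2 ^ j) N)).card)).card : ℝ) ≤
          (2 : ℝ) ^ (θ * (j : ℝ)) := by
  obtain ⟨c, C, η₀, hc, hη₀, hin⟩ := inp ε hε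
  obtain ⟨η, hη⟩ : ∃ η, η = min (min η₀ θ) 1 / 4 := ⟨_, rfl⟩
  have hη0 : 0 < η := by
    rw [hη]
    have : 0 < min (min η₀ θ) 1 := lt_min (lt_min hη₀ hθ) one_pos
    positivity
  have hη1 : 4 * η ≤ η₀ := by
    rw [hη]
    have : min (min η₀ θ) 1 ≤ η₀ := (min_le_left _ _).trans (min_le_left _ _)
    linarith
  have hη2 : 4 * η ≤ θ := by
    rw [hη]
    have : min (min η₀ θ) 1 ≤ θ := (min_le_left _ _).trans (min_le_right _ _)
    linarith
  have hη3 : η ≤ 1 / 4 := by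
    rw [hη]
    have : min (min η₀ θ) 1 ≤ 1 := min_le_right _ _
    linarith
  obtain ⟨E, hE⟩ : ∃ E : ℕ, 1 / η < E := exists_nat_gt _
  have hE0 : (0 : ℝ) < E := lt_trans (by positivity) hE
  have hEinv : 1 / (E : ℝ) ≤ η := by
    rw [div_le_iff₀ hE0]
    rw [div_lt_iff₀ hη0] at hE
    linarith
  have hE2 : 2 ≤ E := by
    have h1 : (4 : ℝ) ≤ 1 / η := by
      rw [le_div_iff₀ hη0]
      linarith
    have h2 : (2 : ℝ) ≤ E := by linarith
    exact_mod_cast h2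
  obtain ⟨δ, hδd⟩ : ∃ δ, δ = min c 1 / 2 := ⟨_, rfl⟩
  have hδ : 0 < δ := by
    have : 0 < min c 1 := lt_min hc one_pos
    rw [hδd]
    positivity
  have hδ1 : δ ≤ 1 := by
    have : min c 1 ≤ 1 := min_le_right _ _
    linarith
  have hδc : 2 * δ ≤ c := by
    have : min c 1 ≤ c := min_le_left _ _
    linarith
  obtain ⟨K₁, hK₁⟩ := exists_pow_lt_of_lt_one (show (0 : ℝ) < 1 / 32 by norm_num)
    (show 1 - δ / 4 < 1 by linarith)
  have hK₁0 : 0 < K₁ := by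
    rcases Nat.eq_zero_or_pos K₁ with h | h
    · rw [h, pow_zero] at hK₁
      norm_num at hK₁
    · exact h
  have hK0 : 0 < E * K₁ := Nat.mul_pos (by omega) hK₁0
  refine ⟨E * K₁, η, hK0, hη0, fun A hA hdens => ?_⟩
  have t2 : Tendsto (fun j : ℕ => 2 ^ j) atTop atTop := tendsto_pow_atTop_atTop_of_one_lt (by norm_num)
  have hev : ∀ᶠ i : ℕ in atTop, (2 : ℝ) ^ ((1 - η) * (i : ℝ)) ≤ (AA A i).card ∧
      (Real.exp (Real.log 2 * i / 2) ≤ δ / 2 * (2 : ℝ) ^ (3 / 4 * (i : ℝ)) ∧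
      ((E * K₁ : ℕ) : ℝ) * (i + 1) ≤ δ / 4 * (2 : ℝ) ^ (3 / 4 * (i : ℝ))) := by
    filter_upwards [t2.eventually hdens, ev_large δ ((E * K₁ : ℕ) : ℝ) hδ hδ1 (by exact_mod_cast hK0)]
      with i hi h2
    refine ⟨?_, h2⟩
    rw [AA_card hA, ← rpow_cast]
    exact hi
  obtain ⟨i₀, hi₀⟩ := eventually_atTop.1 hev
  have hAi : ∀ i, i₀ ≤ i → (2 : ℝ) ^ (3 / 4 * (i : ℝ)) ≤ (AA A i).card ∧
      (((AA A i).filter (fun p => ¬ 2 ^ i < p * p)).card : ℝ) ≤ δ / 2 * (AA A i).card ∧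
      ((AA A i).card : ℝ) = (big i (AA A i)).card + ((AA A i).filter (fun p => ¬ 2 ^ i < p * p)).card := by
    intro i hi
    obtain ⟨h1, h2, h3⟩ := hi₀ i hi
    have h4 : (2 : ℝ) ^ (3 / 4 * (i : ℝ)) ≤ (AA A i).card := by
      refine le_trans ?_ h1
      apply Real.rpow_le_rpow_of_exponent_le (by norm_num)
      apply mul_le_mul_of_nonneg_right _ (by positivity)
      linarith
    refine ⟨h4, ?_, ?_⟩
    · refine (small_card i _ ?_).trans (h2.trans ?_)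
      · intro p hp
        unfold AA at hp
        rw [mem_filter, mem_Icc] at hp
        exact hp.1.1
      · exact mul_le_mul_of_nonneg_left h4 (by positivity)
    · unfold big
      exact_mod_cast (card_filter_add_card_filter_not (fun p => 2 ^ i < p * p)).symm
  obtain ⟨Good, hGood⟩ : ∃ Good : ℕ → Prop, Good = fun N => ∀ i, i₀ ≤ i → act E i N →
      c * (AA A i).card ≤ (((AA A i).filter (RX ε (2 ^ sc N) N)).card : ℝ) := ⟨_, rfl⟩
  obtain ⟨S, hS0, hS1, hS2⟩ := multi δ hδ hδ1 (E * K₁) E i₀ hK0 hE2 (fun i => big i (AA A i)) Good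
    (fun N => RX ε (2 ^ sc N) N) (by
      intro i hi
      obtain ⟨h1, h2, h3⟩ := hAi i hi
      have h4 := (hi₀ i hi).2.2
      have h5 : (0 : ℝ) ≤ (AA A i).card := by positivity
      have h6 : δ / 4 * (2 : ℝ) ^ (3 / 4 * (i : ℝ)) ≤ δ / 4 * (AA A i).card :=
        mul_le_mul_of_nonneg_left h1 (by positivity)
      have h7 : ((AA A i).card : ℝ) / 2 ≤ (big i (AA A i)).card := by
        have : δ / 2 * ((AA A i).card : ℝ) ≤ 1 / 2 * (AA A i).card :=
          mul_le_mul_of_nonneg_right (by linarith) h5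
        linarith
      calc ((E * K₁ : ℕ) : ℝ) * ((i : ℝ) + 1) ≤ δ / 4 * (AA A i).card := h4.trans h6
        _ = δ / 2 * ((AA A i).card / 2) := by ring
        _ ≤ δ / 2 * (big i (AA A i)).card := mul_le_mul_of_nonneg_left h7 (by positivity))
    (by
      intro i hi N hN hact
      rw [hGood] at hN
      have h0 := hN i hi hact
      obtain ⟨h1, h2, h3⟩ := hAi i hi
      have h4 : ((AA A i).filter (RX ε (2 ^ sc N) N)).card ≤
          ((big i (AA A i)).filter (RX ε (2 ^ sc N) N)).card +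
          ((AA A i).filter (fun p => ¬ 2 ^ i < p * p)).card := by
        refine (card_le_card ?_).trans (card_union_le _ _)
        intro p hp
        rw [mem_filter] at hp
        unfold big
        rw [mem_union, mem_filter, mem_filter, mem_filter]
        by_cases h : 2 ^ i < p * p
        · exact Or.inl ⟨⟨hp.1, h⟩, hp.2⟩
        · exact Or.inr ⟨hp.1, h⟩
      have h4' : (((AA A i).filter (RX ε (2 ^ sc N) N)).card : ℝ) ≤
          ((big i (AA A i)).filter (RX ε (2 ^ sc N) N)).card +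
          ((AA A i).filter (fun p => ¬ 2 ^ i < p * p)).card := by exact_mod_cast h4
      have h5 : (0 : ℝ) ≤ (AA A i).card := by positivity
      have h6 : (0 : ℝ) ≤ ((AA A i).filter (fun p => ¬ 2 ^ i < p * p)).card := by positivity
      have h7 : δ * ((big i (AA A i)).card : ℝ) ≤ δ * (AA A i).card :=
        mul_le_mul_of_nonneg_left (by linarith) hδ.le
      have h8 : 2 * δ * ((AA A i).card : ℝ) ≤ c * (AA A i).card := mul_le_mul_of_nonneg_right hδc h5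
      nlinarith)
  choose f hf1 hf2 using hS1
  have hSf : ∀ t, S t = (range t).image f := by
    intro t
    induction t with
    | zero => rw [hS0]; simp
    | succ t ih => rw [hf2, ih, range_add_one, image_insert]
  refine ⟨i₀, f, fun t => ?_, ?_⟩
  · have h1 := hf1 t
    unfold big AA at h1
    rw [mem_filter, mem_filter, mem_Icc] at h1
    exact ⟨h1.1.2, h1.2, h1.1.1.2⟩
  · filter_upwards [ev_count C (θ / 2) (by positivity), eventually_ge_atTop (2 * i₀ + 2)] with j hj hj2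
    have hjE : j / E ≤ j / 2 := Nat.div_le_div_left hE2 (by norm_num)
    obtain ⟨e, he⟩ : ∃ e, e = j / E := ⟨_, rfl⟩
    have hij : i₀ + e ≤ j := by omega
    refine ⟨by omega, ?_⟩
    have hpow : (2 : ℕ) ^ (j + 1) = 2 * 2 ^ j := by rw [pow_succ]; ring
    have hsub : ((Ioc (2 ^ j) (2 ^ (j + 1))).filter (fun N =>
        ¬ j ≤ (((range (E * K₁ * (j + 1 - i₀))).image f).filter (RX ε (2 ^ j) N)).card)) ⊆
        (Icc (j - e) j).biUnion (fun i => (Ioc (2 ^ j) (2 * 2 ^ j)).filter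
          (fun N : ℕ => (((AA A i).filter (RX ε (2 ^ j) N)).card : ℝ) < c * (AA A i).card)) := by
      intro N hN
      rw [mem_filter, mem_Ioc] at hN
      obtain ⟨⟨hN1, hN2⟩, hN3⟩ := hN
      have hsc : sc N = j := sc_eq hN1 hN2
      by_contra hcon
      have hg : Good N := by
        rw [hGood]
        intro i hi hact
        by_contra hlt
        push Not at hlt
        apply hcon
        unfold act at hact
        rw [hsc, ← he] at hact
        rw [mem_biUnion]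
        refine ⟨i, mem_Icc.2 ⟨by omega, hact.2⟩, ?_⟩
        rw [mem_filter, mem_Ioc]
        rw [hsc] at hlt
        exact ⟨⟨hN1, by rw [← hpow]; exact hN2⟩, hlt⟩
      apply hN3
      have h1 := hS2 N hg (E * K₁ * (j + 1 - i₀))
      rw [hSf, hsc] at h1
      exact final hδ1 (by omega) hK₁0 hK₁ hδ (by omega) (by rw [← he]; exact hij) hN2 hsc h1
    have h1 : (((Ioc (2 ^ j) (2 ^ (j + 1))).filter (fun N =>
        ¬ j ≤ (((range (E * K₁ * (j + 1 - i₀))).image f).filter (RX ε (2 ^ j) N)).card)).card : ℝ) ≤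
        ∑ i ∈ Icc (j - e) j, (((Ioc (2 ^ j) (2 * 2 ^ j)).filter
          (fun N : ℕ => (((AA A i).filter (RX ε (2 ^ j) N)).card : ℝ) < c * (AA A i).card)).card : ℝ) := by
      have h2 := (card_le_card hsub).trans card_biUnion_le
      exact_mod_cast h2
    refine h1.trans ?_
    have h2 : ∀ i ∈ Icc (j - e) j, (((Ioc (2 ^ j) (2 * 2 ^ j)).filter
          (fun N : ℕ => (((AA A i).filter (RX ε (2 ^ j) N)).card : ℝ) < c * (AA A i).card)).card : ℝ) ≤
          |C| * (2 : ℝ) ^ (θ / 2 * (j : ℝ)) := by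
      intro i hi
      rw [mem_Icc] at hi
      have hii : i₀ ≤ i := by omega
      refine (one_scale hη0 hη1 hη3 hin hEinv hA (by omega) hi.2 (by rw [← he]; omega) (hi₀ i hii).1).trans ?_
      apply mul_le_mul_of_nonneg_left _ (abs_nonneg C)
      apply Real.rpow_le_rpow_of_exponent_le (by norm_num)
      apply mul_le_mul_of_nonneg_right _ (by positivity)
      linarith
    refine (sum_le_sum h2).trans ?_
    rw [sum_const, nsmul_eq_mul, Nat.card_Icc]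
    have h3 : ((j + 1 - (j - e) : ℕ) : ℝ) ≤ j + 1 := by
      have : j + 1 - (j - e) ≤ j + 1 := Nat.sub_le _ _
      exact_mod_cast this
    have h4 : (2 : ℝ) ^ (θ * (j : ℝ)) = (2 : ℝ) ^ (θ / 2 * (j : ℝ)) * (2 : ℝ) ^ (θ / 2 * (j : ℝ)) := by
      rw [← Real.rpow_add (by norm_num)]
      congr 1
      ring
    rw [h4]
    have h5 : 0 < (2 : ℝ) ^ (θ / 2 * (j : ℝ)) := Real.rpow_pos_of_pos (by norm_num) _
    calc ((j + 1 - (j - e) : ℕ) : ℝ) * (|C| * (2 : ℝ) ^ (θ / 2 * (j : ℝ)))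
        ≤ ((j : ℝ) + 1) * (|C| * (2 : ℝ) ^ (θ / 2 * (j : ℝ))) :=
          mul_le_mul_of_nonneg_right h3 (mul_nonneg (abs_nonneg C) h5.le)
      _ = (((j : ℝ) + 1) * |C|) * (2 : ℝ) ^ (θ / 2 * (j : ℝ)) := by ring
      _ ≤ _ := mul_le_mul_of_nonneg_right hj h5.le

end Pool.Agent.H563.AP
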