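import Pool.Agent.H563.AP.Blk
import Pool.Graph.R_pool_sql_team_seeded_2aa45f1a.Results.MP_e3f158_nt.APrimePlusAlmostPrime

/-!
# Thin sets of iterated primes: the choice of the blocks
-/

set_option autoImplicit false

namespace Pool.Agent.H563.AP

open Finset Filter Topology
open scoped Classical
open Pool.Agent.Results.MP_e3f158_nt.APrimePlusAlmostPrime (pr iPrime f₂ aPrimes Represents reps exceptional)

/-- for large `X` all the types of the question are in the range `(a + 1) log log X ≤ η log X` -/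
lemma range_f2 (η : ℝ) (hη : 0 < η) : ∀ᶠ X : ℕ in atTop, ∀ a N : ℕ, N ≤ 2 * X → f₂ a 0 ≤ N →
    ((a : ℝ) + 1) * Real.log (Real.log X) ≤ η * Real.log X := by
  have tN : Tendsto (fun N : ℕ => (N : ℝ)) atTop atTop := tendsto_natCast_atTop_atTop
  have tL : Tendsto (fun N : ℕ => Real.log (N : ℝ)) atTop atTop := Real.tendsto_log_atTop.comp tN
  have tS : Tendsto (fun N : ℕ => √(Real.log (N : ℝ))) atTop atTop := Real.tendsto_sqrt_atTop.comp tL
  have hev : ∀ᶠ t : ℝ in atTop, 4 ≤ t ∧ (2 * t + 1) * (2 * Real.log t) ≤ η * t ^ 2 := by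
    have h1 := Real.isLittleO_log_id_atTop.bound (show (0 : ℝ) < η / 6 by positivity)
    filter_upwards [eventually_ge_atTop 4, h1] with t h1 h4
    have hl : 0 ≤ Real.log t := Real.log_nonneg (by linarith)
    rw [Real.norm_of_nonneg hl] at h4
    simp only [id] at h4
    rw [Real.norm_of_nonneg (by linarith)] at h4
    refine ⟨h1, ?_⟩
    calc (2 * t + 1) * (2 * Real.log t) ≤ (3 * t) * (2 * (η / 6 * t)) := by gcongr; linarith
      _ = η * t ^ 2 := by ring
  filter_upwards [tS.eventually hev, eventually_ge_atTop 3] with X ht hX3 a N hN hf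
  obtain ⟨e1, e4⟩ := ht
  have hXr : (3 : ℝ) ≤ X := by exact_mod_cast hX3
  have hX0 : (0 : ℝ) < X := by linarith
  obtain ⟨L, hL⟩ : ∃ L, L = Real.log (X : ℝ) := ⟨_, rfl⟩
  rw [← hL] at e1 e4 ⊢
  have hL0 : 0 < L := by rw [hL]; exact Real.log_pos (by linarith)
  obtain ⟨t, ht⟩ : ∃ t, t = √L := ⟨_, rfl⟩
  rw [← ht] at e1 e4
  have ht2 : t * t = L := by rw [ht]; exact Real.mul_self_sqrt hL0.le
  have ht0 : 0 < t := by linarith
  have hLt : Real.log L = 2 * Real.log t := by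
    rw [← ht2, Real.log_mul ht0.ne' ht0.ne']
    ring
  have hlt1 : 0 ≤ Real.log t := Real.log_nonneg (by linarith)
  have h6 : a ^ 2 ≤ Nat.log 2 (2 * X) :=
    Pool.Agent.Y886.UT.log_of_f2 (a := a) (b := 0) (n := N) hN hf (Pool.Agent.Y886.UT.f2_ge a 0).1
  have h7 : ((a : ℝ)) * a ≤ Nat.log 2 (2 * X) := by
    have : a * a ≤ Nat.log 2 (2 * X) := by nlinarith
    exact_mod_cast this
  have h8 := Pool.Agent.Y886.UT.nlog_le (show 1 ≤ 2 * X by omega)
  have h9 : Real.log ((2 * X : ℕ) : ℝ) = Real.log 2 + L := by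
    push_cast
    rw [Real.log_mul (by norm_num) hX0.ne', hL]
  rw [h9] at h8
  have hlog2 : (0.69 : ℝ) ≤ Real.log 2 := by
    have := Real.log_two_gt_d9
    linarith
  have hL16 : 16 ≤ L := by nlinarith
  have h10 : (Nat.log 2 (2 * X) : ℝ) ≤ 4 * L := by
    by_contra hcon
    push Not at hcon
    have h11 : 4 * L * Real.log 2 < Nat.log 2 (2 * X) * Real.log 2 :=
      mul_lt_mul_of_pos_right hcon (by linarith)
    nlinarith
  have hAt : (a : ℝ) ≤ 2 * t :=
    Pool.Agent.Y886.UT.abs_le_of_mul_self (Nat.cast_nonneg _) (by linarith) (by nlinarith)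
  rw [hLt]
  calc ((a : ℝ) + 1) * (2 * Real.log t) ≤ (2 * t + 1) * (2 * Real.log t) := by gcongr
    _ ≤ η * t ^ 2 := e4
    _ = η * L := by rw [← ht2]; ring

/-- many `a`-primes -/
lemma many (K η : ℝ) (hK : 0 < K) (h1 : ∀ᶠ X : ℕ in atTop, ∀ a : ℕ,
      ((a : ℝ) + 1) * Real.log (Real.log X) ≤ η * Real.log X →
      (X : ℝ) / (K * Real.log X) ^ (a + 1) ≤ (aPrimes a X).card) :
    ∀ᶠ X : ℕ in atTop, ∀ a : ℕ, ((a : ℝ) + 1) * Real.log (Real.log X) ≤ min η (1 / 8) * Real.log X →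
      Real.exp (3 / 4 * Real.log X) ≤ (aPrimes a X).card := by
  have tN : Tendsto (fun N : ℕ => (N : ℝ)) atTop atTop := tendsto_natCast_atTop_atTop
  have tL : Tendsto (fun N : ℕ => Real.log (N : ℝ)) atTop atTop := Real.tendsto_log_atTop.comp tN
  filter_upwards [h1, tL.eventually_ge_atTop (max K 1), eventually_ge_atTop 2] with X hX hKL hX2 a ha
  have hXr : (2 : ℝ) ≤ X := by exact_mod_cast hX2
  have hX0 : (0 : ℝ) < X := by linarith
  obtain ⟨L, hL⟩ : ∃ L, L = Real.log (X : ℝ) := ⟨_, rfl⟩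
  rw [← hL] at hX ha hKL ⊢
  have hL1 : 1 ≤ L := (le_max_right _ _).trans hKL
  have hKL' : K ≤ L := (le_max_left _ _).trans hKL
  have hL0 : 0 < L := by linarith
  have ha1 : ((a : ℝ) + 1) * Real.log L ≤ η * L := ha.trans (mul_le_mul_of_nonneg_right (min_le_left _ _) hL0.le)
  have ha2 : ((a : ℝ) + 1) * Real.log L ≤ 1 / 8 * L :=
    ha.trans (mul_le_mul_of_nonneg_right (min_le_right _ _) hL0.le)
  refine le_trans ?_ (hX a ha1)
  have h2 : (K * L) ^ (a + 1) ≤ Real.exp (1 / 4 * L) := by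
    calc (K * L) ^ (a + 1) ≤ (L * L) ^ (a + 1) := by
          apply pow_le_pow_left₀ (by positivity)
          exact mul_le_mul_of_nonneg_right hKL' hL0.le
      _ = Real.exp (2 * (((a : ℝ) + 1) * Real.log L)) := by
          have h3 : L * L = Real.exp (2 * Real.log L) := by
            rw [two_mul, Real.exp_add, Real.exp_log hL0]
          rw [h3, ← Real.exp_nat_mul]
          congr 1
          push_cast
          ring
      _ ≤ Real.exp (1 / 4 * L) := Real.exp_le_exp.2 (by linarith)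
  rw [le_div_iff₀ (by positivity)]
  have h4 : (X : ℝ) = Real.exp L := by rw [hL, Real.exp_log hX0]
  rw [h4]
  calc Real.exp (3 / 4 * L) * (K * L) ^ (a + 1) ≤ Real.exp (3 / 4 * L) * Real.exp (1 / 4 * L) :=
        mul_le_mul_of_nonneg_left h2 (Real.exp_pos _).le
    _ = Real.exp L := by
        rw [← Real.exp_add]
        congr 1
        ring

/-- `E = exp (L / 4)` is large -/
lemma E_large (δ : ℝ) (hδ : 0 < δ) (hδ1 : δ ≤ 1) : ∀ᶠ L : ℝ in atTop,
    Real.exp (1 / 2 * L) ≤ δ / 2 * Real.exp (3 / 4 * L) ∧ 16 / δ * (2 * L) + 1 ≤ δ / 4 * Real.exp (3 / 4 * L) := by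
  have h0 : ∀ᶠ L : ℝ in atTop, 4 / δ * (32 / δ + 1) * 32 ≤ L := eventually_ge_atTop _
  filter_upwards [h0, eventually_ge_atTop 1] with L h1 h2
  have hE0 : 0 < Real.exp (1 / 4 * L) := Real.exp_pos _
  have hE : L ^ 2 / 32 ≤ Real.exp (1 / 4 * L) := by
    have := Real.quadratic_le_exp_of_nonneg (show 0 ≤ 1 / 4 * L by linarith)
    nlinarith
  have hq : 4 / δ * (32 / δ + 1) * L ≤ Real.exp (1 / 4 * L) := by
    refine le_trans ?_ hE
    nlinarith
  have hd1 : 1 ≤ 1 / δ := by rw [le_div_iff₀ hδ]; linarith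
  have hd : 4 / δ ≤ Real.exp (1 / 4 * L) := by
    refine le_trans ?_ hq
    have h4 : (1 : ℝ) ≤ 32 / δ + 1 := by
      have : 0 < 32 / δ := by positivity
      linarith
    calc (4 : ℝ) / δ = 4 / δ * 1 * 1 := by ring
      _ ≤ 4 / δ * (32 / δ + 1) * L := by gcongr
  have hE1 : 1 ≤ Real.exp (1 / 4 * L) := Real.one_le_exp (by linarith)
  have e2 : Real.exp (1 / 2 * L) = Real.exp (1 / 4 * L) * Real.exp (1 / 4 * L) := by
    rw [← Real.exp_add]
    congr 1
    ring
  have e3 : Real.exp (3 / 4 * L) = Real.exp (1 / 4 * L) * (Real.exp (1 / 4 * L) * Real.exp (1 / 4 * L)) := by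
    rw [← Real.exp_add, ← Real.exp_add]
    congr 1
    ring
  obtain ⟨E, hEd⟩ : ∃ E, E = Real.exp (1 / 4 * L) := ⟨_, rfl⟩
  rw [← hEd] at hE0 hq hd hE1 e2 e3
  rw [e2, e3]
  constructor
  · have h5 : 4 ≤ δ * E := by
      rw [div_le_iff₀ hδ] at hd
      linarith
    have h6 : 0 ≤ E * E := by positivity
    nlinarith
  · have h7 : (32 / δ + 1) * L ≤ δ / 4 * E := by
      calc (32 / δ + 1) * L = δ / 4 * (4 / δ * (32 / δ + 1) * L) := by
            field_simp
        _ ≤ δ / 4 * E := mul_le_mul_of_nonneg_left hq (by positivity)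
    have h8 : δ / 4 * E ≤ δ / 4 * (E * (E * E)) := by
      apply mul_le_mul_of_nonneg_left _ (by positivity)
      have h9 : 1 ≤ E * E := by nlinarith
      nlinarith
    have h10 : 16 / δ * (2 * L) + 1 ≤ (32 / δ + 1) * L := by
      have : 16 / δ * (2 * L) = 32 / δ * L := by ring
      rw [this, add_mul]
      linarith
    linarith

/-- the good numbers of a block -/
noncomputable def GN (ε c : ℝ) (a j : ℕ) : Finset ℕ := (Ioc (2 ^ j) (2 * 2 ^ j)) \ exceptional ε c a (2 ^ j)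

/-- the existence of a good choice in the block `j` -/
def Pos (ε c δ : ℝ) (a j : ℕ) : Prop := ∃ S ⊆ big j (aPrimes a (2 ^ j)), (S.card : ℝ) ≤ 16 / δ * j + 1 ∧
  ∀ N ∈ GN ε c a j, j ≤ (S.filter (Represents ε (2 ^ j) N)).card

lemma pos_ev (ε c K η : ℝ) (hc : 0 < c) (hK : 0 < K) (hη : 0 < η)
    (h1 : ∀ᶠ X : ℕ in atTop, ∀ a : ℕ, ((a : ℝ) + 1) * Real.log (Real.log X) ≤ η * Real.log X →
      (X : ℝ) / (K * Real.log X) ^ (a + 1) ≤ (aPrimes a X).card) :
    ∀ᶠ j : ℕ in atTop, ∀ a : ℕ, ((a : ℝ) + 1) * Real.log (Real.log ((2 ^ j : ℕ) : ℝ)) ≤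
      min η (1 / 8) * Real.log ((2 ^ j : ℕ) : ℝ) → Pos ε c (min c 1 / 2) a j := by
  have hδ : 0 < min c 1 / 2 := by
    have : 0 < min c 1 := lt_min hc one_pos
    positivity
  have hδ1 : min c 1 / 2 ≤ 1 := by
    have : min c 1 ≤ 1 := min_le_right _ _
    linarith
  have t2 : Tendsto (fun j : ℕ => 2 ^ j) atTop atTop := tendsto_pow_atTop_atTop_of_one_lt (by norm_num)
  have tL : Tendsto (fun j : ℕ => Real.log ((2 ^ j : ℕ) : ℝ)) atTop atTop :=
    Real.tendsto_log_atTop.comp (tendsto_natCast_atTop_atTop.comp t2)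
  filter_upwards [t2.eventually (many K η hK h1), tL.eventually (E_large _ hδ hδ1), eventually_ge_atTop 1]
    with j hm hE hj a ha
  have hcard := hm a ha
  obtain ⟨δ, hδd⟩ : ∃ δ, δ = min c 1 / 2 := ⟨_, rfl⟩
  rw [← hδd] at hδ hδ1 hE ⊢
  have hlog : Real.log ((2 ^ j : ℕ) : ℝ) = j * Real.log 2 := by
    push_cast
    rw [Real.log_pow]
  obtain ⟨L, hL⟩ : ∃ L, L = Real.log ((2 ^ j : ℕ) : ℝ) := ⟨_, rfl⟩
  rw [← hL] at hcard hE hlog
  have hl2 := Real.log_two_gt_d9
  have hj0 : (0 : ℝ) ≤ j := by positivity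
  have hjL : (j : ℝ) ≤ 2 * L := by rw [hlog]; nlinarith
  unfold Pos
  refine block hδ hδ1 j (aPrimes a (2 ^ j)) (GN ε c a j) (Represents ε (2 ^ j)) ?_ ?_ ?_ ?_
  · have h2 : (GN ε c a j).card ≤ (Ioc (2 ^ j) (2 * 2 ^ j)).card := card_le_card sdiff_subset
    rw [Nat.card_Ioc] at h2
    have h3 : (GN ε c a j).card ≤ 2 ^ j := by omega
    exact_mod_cast h3
  · intro N hN
    unfold GN at hN
    rw [Finset.mem_sdiff] at hN
    have h2 : ¬ ((reps ε a (2 ^ j) N : ℝ) < c * (aPrimes a (2 ^ j)).card) := by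
      intro h
      apply hN.2
      unfold exceptional
      rw [mem_filter]
      exact ⟨hN.1, h⟩
    rw [not_lt] at h2
    have h3 : 2 * δ ≤ c := by
      rw [hδd]
      have : min c 1 ≤ c := min_le_left _ _
      linarith
    calc 2 * δ * ((aPrimes a (2 ^ j)).card : ℝ) ≤ c * (aPrimes a (2 ^ j)).card :=
          mul_le_mul_of_nonneg_right h3 (by positivity)
      _ ≤ (reps ε a (2 ^ j) N : ℝ) := h2
      _ = _ := by
          unfold reps
          congr!
  · refine (small_card j _ ?_).trans ?_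
    · intro p hp
      unfold aPrimes at hp
      rw [mem_filter, mem_Icc] at hp
      exact hp.1.1
    · have h2 : Real.log 2 * j / 2 = 1 / 2 * L := by rw [hlog]; ring
      rw [h2]
      refine hE.1.trans ?_
      exact mul_le_mul_of_nonneg_left hcard (by positivity)
  · calc 16 / δ * j + 1 ≤ 16 / δ * (2 * L) + 1 := by gcongr
      _ ≤ δ / 4 * Real.exp (3 / 4 * L) := hE.2
      _ ≤ _ := mul_le_mul_of_nonneg_left hcard (by positivity)

/-- the chosen elements of the block `j` -/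
noncomputable def SS (ε c δ : ℝ) (a j : ℕ) : Finset ℕ := if h : Pos ε c δ a j then Classical.choose h else ∅

lemma SS_sub {ε c δ : ℝ} {a j p : ℕ} (h : p ∈ SS ε c δ a j) : 2 ^ j < p * p ∧ p ≤ 2 ^ j ∧ p ∈ aPrimes a (2 ^ j) := by
  unfold SS at h
  by_cases hP : Pos ε c δ a j
  · rw [dif_pos hP] at h
    have h1 := (Classical.choose_spec hP).1 h
    unfold big at h1
    rw [mem_filter] at h1
    exact ⟨h1.2, (Pool.Agent.Results.MP_e3f158_nt.APrimePlusAlmostPrime.prime_of_mem h1.1).2, h1.1⟩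
  · rw [dif_neg hP] at h
    simp at h

lemma SS_card {ε c δ : ℝ} (hδ : 0 < δ) (a j : ℕ) : ((SS ε c δ a j).card : ℝ) ≤ (16 / δ + 1) * (j + 1) := by
  have hj : (0 : ℝ) ≤ j := by positivity
  have hd : 0 < 16 / δ := by positivity
  unfold SS
  by_cases hP : Pos ε c δ a j
  · rw [dif_pos hP]
    have h1 := (Classical.choose_spec hP).2.1
    nlinarith
  · rw [dif_neg hP]
    simp
    positivity

lemma SS_hit {ε c δ : ℝ} {a j : ℕ} (hP : Pos ε c δ a j) {N : ℕ} (hN : N ∈ GN ε c a j) :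
    j ≤ ((SS ε c δ a j).filter (Represents ε (2 ^ j) N)).card := by
  unfold SS
  rw [dif_pos hP]
  exact (Classical.choose_spec hP).2.2 N hN

end Pool.Agent.H563.AP
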