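import Mathlib

/-!
# Choosing one element after the other, at all scales
-/

set_option autoImplicit false

namespace Pool.Agent.H563.AP

open Finset
open scoped Classical

/-- One more element: the weighted exponential sum decreases by the factor `1 - δ / 4`. -/
lemma step (B S M : Finset ℕ) (R : ℕ → ℕ → Prop) (v : ℕ → ℝ) (δ : ℝ) (hδ : 0 < δ) (hδ1 : δ ≤ 1)
    (hv : ∀ N ∈ M, 0 ≤ v N) (hB : 0 < B.card) (hS : (S.card : ℝ) ≤ δ / 2 * B.card)
    (hR : ∀ N ∈ M, δ * B.card ≤ ((B.filter (R N)).card : ℝ)) :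
    ∃ p ∈ B \ S, ∑ N ∈ M, v N * (1 / 2 : ℝ) ^ ((insert p S).filter (R N)).card ≤
      (1 - δ / 4) * ∑ N ∈ M, v N * (1 / 2 : ℝ) ^ (S.filter (R N)).card := by
  have hBpos : (0 : ℝ) < B.card := by exact_mod_cast hB
  have hcard : B.card ≤ (B \ S).card + S.card := by
    have := card_le_card (show B ⊆ (B \ S) ∪ S by
      intro z hz
      by_cases hzS : z ∈ S
      · exact mem_union_right _ hzS
      · exact mem_union_left _ (Finset.mem_sdiff.2 ⟨hz, hzS⟩))
    exact this.trans (card_union_le _ _)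
  have hcard' : (B.card : ℝ) ≤ (B \ S).card + S.card := by exact_mod_cast hcard
  have hRpos : (0 : ℝ) < (B \ S).card := by nlinarith
  have hRle : ((B \ S).card : ℝ) ≤ B.card := by exact_mod_cast card_le_card sdiff_subset
  have hRne : (B \ S).Nonempty := by
    rw [← card_pos]
    exact_mod_cast hRpos
  have key : ∑ p ∈ B \ S, ∑ N ∈ M, v N * (1 / 2 : ℝ) ^ ((insert p S).filter (R N)).card ≤
      ∑ _p ∈ B \ S, (1 - δ / 4) * ∑ N ∈ M, v N * (1 / 2 : ℝ) ^ (S.filter (R N)).card := by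
    rw [sum_comm, sum_const, nsmul_eq_mul]
    have h1 : ∀ N ∈ M, ∑ p ∈ B \ S, v N * (1 / 2 : ℝ) ^ ((insert p S).filter (R N)).card ≤
        (v N * (1 / 2 : ℝ) ^ (S.filter (R N)).card) * ((B \ S).card * (1 - δ / 4)) := by
      intro N hN
      have h2 : ∀ p ∈ B \ S, v N * (1 / 2 : ℝ) ^ ((insert p S).filter (R N)).card =
          (v N * (1 / 2 : ℝ) ^ (S.filter (R N)).card) * (1 - if R N p then 1 / 2 else 0) := by
        intro p hp
        rw [Finset.mem_sdiff] at hp
        by_cases hpH : R N p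
        · rw [filter_insert, if_pos hpH, card_insert_of_notMem (by simp [hp.2]), pow_succ, if_pos hpH]
          ring
        · rw [filter_insert, if_neg hpH, if_neg hpH]
          ring
      rw [sum_congr rfl h2, ← mul_sum]
      apply mul_le_mul_of_nonneg_left _ (mul_nonneg (hv N hN) (by positivity))
      rw [sum_sub_distrib, sum_const, nsmul_eq_mul, mul_one, ← sum_filter, sum_const, nsmul_eq_mul]
      have h4 : ((B.filter (R N)).card : ℝ) ≤ ((B \ S).filter (R N)).card + S.card := by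
        have h5 : (B.filter (R N)).card ≤ ((B \ S).filter (R N)).card + S.card := by
          have := card_le_card (show B.filter (R N) ⊆ ((B \ S).filter (R N)) ∪ S by
            intro z hz
            rw [mem_filter] at hz
            by_cases hzS : z ∈ S
            · exact mem_union_right _ hzS
            · exact mem_union_left _ (mem_filter.2 ⟨Finset.mem_sdiff.2 ⟨hz.1, hzS⟩, hz.2⟩))
          exact this.trans (card_union_le _ _)
        exact_mod_cast h5
      have h6 := hR N hN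
      have h7 : δ / 2 * ((B \ S).card : ℝ) ≤ ((B \ S).filter (R N)).card := by nlinarith
      nlinarith
    refine (sum_le_sum h1).trans ?_
    rw [← sum_mul]
    exact le_of_eq (by ring)
  obtain ⟨p, hp, hpv⟩ := exists_le_of_sum_le hRne key
  exact ⟨p, hp, hpv⟩

lemma sum_w (M : ℕ) : ∑ N ∈ range M, 1 / (((N : ℝ) + 1) * (N + 2)) ≤ 1 := by
  have h : ∑ N ∈ range M, 1 / (((N : ℝ) + 1) * (N + 2)) = 1 - 1 / ((M : ℝ) + 1) := by
    induction M with
    | zero => simp
    | succ M ih =>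
      rw [sum_range_succ, ih]
      push_cast
      field_simp
      ring
  rw [h]
  have : 0 ≤ 1 / ((M : ℝ) + 1) := by positivity
  linarith

/-- `j` with `N ∈ (2 ^ j, 2 ^ (j + 1)]` -/
def sc (N : ℕ) : ℕ := Nat.log 2 (N - 1)

/-- the scale `i` is used for `N` -/
def act (E i N : ℕ) : Prop := sc N ≤ i + sc N / E ∧ i ≤ sc N

lemma act_lt {E i N : ℕ} (hE : 2 ≤ E) (h : act E i N) : N < 2 ^ (2 * i + 3) := by
  obtain ⟨h1, h2⟩ := h
  have h3 : sc N / E ≤ sc N / 2 := Nat.div_le_div_left hE (by norm_num)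
  have h4 : sc N ≤ 2 * i + 1 := by omega
  have h5 : N - 1 < 2 ^ (sc N + 1) := Nat.lt_pow_succ_log_self (by norm_num) _
  have h6 : 2 ^ (sc N + 1) ≤ 2 ^ (2 * i + 2) := Nat.pow_le_pow_right (by norm_num) (by omega)
  have h7 : 2 ^ (2 * i + 3) = 2 * 2 ^ (2 * i + 2) := by rw [pow_succ]; ring
  have h8 : 1 ≤ 2 ^ (2 * i + 2) := Nat.one_le_pow _ _ (by norm_num)
  omega

/-- the number of the active steps -/
noncomputable def nn (E K i₀ N t : ℕ) : ℕ := ((range t).filter (fun t' => act E (i₀ + t' / K) N)).card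

lemma nn_succ (E K i₀ N t : ℕ) : nn E K i₀ N (t + 1) = nn E K i₀ N t + if act E (i₀ + t / K) N then 1 else 0 := by
  unfold nn
  rw [range_add_one, filter_insert]
  by_cases h : act E (i₀ + t / K) N
  · rw [if_pos h, if_pos h, card_insert_of_notMem (by simp)]
  · rw [if_neg h, if_neg h, add_zero]

lemma nn_low {E K i₀ N : ℕ} (hK : 0 < K) (hi : i₀ + sc N / E ≤ sc N) :
    K * (sc N / E + 1) ≤ nn E K i₀ N (K * (sc N + 1 - i₀)) := by
  have h1 : sc N / E ≤ sc N := Nat.div_le_self _ _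
  obtain ⟨e, he⟩ : ∃ e, e = sc N / E := ⟨_, rfl⟩
  rw [← he] at h1 hi
  rw [← he]
  have h2 : Ico (K * (sc N - e - i₀)) (K * (sc N + 1 - i₀)) ⊆
      (range (K * (sc N + 1 - i₀))).filter (fun t' => act E (i₀ + t' / K) N) := by
    intro t ht
    rw [mem_Ico] at ht
    rw [mem_filter, mem_range]
    have h3 : sc N - e - i₀ ≤ t / K := by
      rw [Nat.le_div_iff_mul_le hK, mul_comm]
      exact ht.1
    have h4 : t / K < sc N + 1 - i₀ := by
      rw [Nat.div_lt_iff_lt_mul hK, mul_comm]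
      exact ht.2
    obtain ⟨q, hq⟩ : ∃ q, q = t / K := ⟨_, rfl⟩
    unfold act
    rw [← he, ← hq]
    rw [← hq] at h3 h4
    refine ⟨ht.2, ?_, ?_⟩
    · omega
    · omega
  have h3 := card_le_card h2
  rw [Nat.card_Ico] at h3
  have h4 : K * (sc N + 1 - i₀) - K * (sc N - e - i₀) = K * (e + 1) := by
    rw [← Nat.mul_sub]
    congr 1
    omega
  rw [h4] at h3
  exact h3

/-- **The choice at all scales.** -/
theorem multi (δ : ℝ) (hδ : 0 < δ) (hδ1 : δ ≤ 1) (K E i₀ : ℕ) (hK : 0 < K) (hE : 2 ≤ E) (B : ℕ → Finset ℕ)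
    (Good : ℕ → Prop) (R : ℕ → ℕ → Prop)
    (hB : ∀ i, i₀ ≤ i → (K : ℝ) * (i + 1) ≤ δ / 2 * (B i).card)
    (hR : ∀ i, i₀ ≤ i → ∀ N, Good N → act E i N → δ * (B i).card ≤ (((B i).filter (R N)).card : ℝ)) :
    ∃ S : ℕ → Finset ℕ, S 0 = ∅ ∧ (∀ t, ∃ p ∈ B (i₀ + t / K), S (t + 1) = insert p (S t)) ∧
      ∀ N, Good N → ∀ t, (1 / 2 : ℝ) ^ ((S t).filter (R N)).card ≤
        (N + 1) * (N + 2) * (1 - δ / 4) ^ (nn E K i₀ N t) := by
  obtain ⟨ρ, hρ⟩ : ∃ ρ, ρ = 1 - δ / 4 := ⟨_, rfl⟩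
  have hρ0 : 0 < ρ := by rw [hρ]; linarith
  have hρ1 : ρ ≤ 1 := by rw [hρ]; linarith
  -- the weights
  obtain ⟨v, hv⟩ : ∃ v : ℕ → ℕ → ℝ, v = fun (t N : ℕ) => 1 / (((N : ℝ) + 1) * (N + 2)) * (ρ ^ nn E K i₀ N t)⁻¹ := ⟨_, rfl⟩
  have hv0 : ∀ t N, 0 ≤ v t N := by
    intro t N
    rw [hv]
    positivity
  obtain ⟨Mt, hMt⟩ : ∃ Mt : ℕ → Finset ℕ, Mt = fun t =>
    (range (2 ^ (2 * (i₀ + t / K) + 3))).filter (fun N => Good N ∧ act E (i₀ + t / K) N) := ⟨_, rfl⟩
  have hex : ∀ t (S : Finset ℕ), S.card ≤ t → ∃ p ∈ B (i₀ + t / K),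
      ∑ N ∈ Mt t, v t N * (1 / 2 : ℝ) ^ ((insert p S).filter (R N)).card ≤
        ρ * ∑ N ∈ Mt t, v t N * (1 / 2 : ℝ) ^ (S.filter (R N)).card := by
    intro t S hS
    have h1 := hB (i₀ + t / K) (Nat.le_add_right _ _)
    have h2 : (t : ℝ) ≤ K * (((i₀ + t / K : ℕ) : ℝ) + 1) := by
      have h3 : t < K * (t / K + 1) := by
        have := Nat.lt_mul_div_succ t hK
        exact this
      have h4 : t ≤ K * ((i₀ + t / K) + 1) := h3.le.trans (Nat.mul_le_mul_left _ (by omega))
      exact_mod_cast h4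
    have h5 : (S.card : ℝ) ≤ t := by exact_mod_cast hS
    have hKi : (0 : ℝ) < K * (((i₀ + t / K : ℕ) : ℝ) + 1) := by
      have : (0 : ℝ) < K := by exact_mod_cast hK
      positivity
    obtain ⟨p, hp, hp2⟩ := step (B (i₀ + t / K)) S (Mt t) R (v t) δ hδ hδ1 (fun N _ => hv0 t N) (by
        by_contra hcon
        have : (B (i₀ + t / K)).card = 0 := by omega
        rw [this] at h1
        simp only [Nat.cast_zero, mul_zero] at h1
        linarith) (by linarith) (by
        intro N hN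
        rw [hMt, mem_filter] at hN
        exact hR _ (Nat.le_add_right _ _) N hN.2.1 hN.2.2)
    rw [Finset.mem_sdiff] at hp
    rw [← hρ] at hp2
    exact ⟨p, hp.1, hp2⟩
  -- the recursion
  choose! f hf1 hf2 using hex
  obtain ⟨S, hS⟩ : ∃ S : ℕ → Finset ℕ, S = fun t => Nat.rec ∅ (fun t S => insert (f t S) S) t := ⟨_, rfl⟩
  have hS0 : S 0 = ∅ := by rw [hS]; rfl
  have hS1 : ∀ t, S (t + 1) = insert (f t (S t)) (S t) := by
    intro t
    rw [hS]
  have hSc : ∀ t, (S t).card ≤ t := by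
    intro t
    induction t with
    | zero => rw [hS0]; simp
    | succ t ih =>
      rw [hS1]
      exact (card_insert_le _ _).trans (by omega)
  refine ⟨S, hS0, fun t => ⟨f t (S t), hf1 t (S t) (hSc t), hS1 t⟩, ?_⟩
  -- the potential
  obtain ⟨u, hu⟩ : ∃ u : ℕ → ℕ → ℝ, u = fun t N => v t N * (1 / 2 : ℝ) ^ ((S t).filter (R N)).card := ⟨_, rfl⟩
  have hu0 : ∀ t N, 0 ≤ u t N := by
    intro t N
    rw [hu]
    exact mul_nonneg (hv0 t N) (by positivity)
  have hmono : ∀ t M, 2 ^ (2 * (i₀ + t / K) + 3) ≤ M →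
      ∑ N ∈ (range M).filter Good, u (t + 1) N ≤ ∑ N ∈ (range M).filter Good, u t N := by
    intro t M hM
    have hsub : Mt t ⊆ (range M).filter Good := by
      intro N hN
      rw [hMt, mem_filter, mem_range] at hN
      rw [mem_filter, mem_range]
      exact ⟨hN.1.trans_le hM, hN.2.1⟩
    rw [← sum_sdiff hsub, ← sum_sdiff hsub (f := u t)]
    apply add_le_add
    · apply sum_le_sum
      intro N hN
      rw [Finset.mem_sdiff, mem_filter] at hN
      have hna : ¬ act E (i₀ + t / K) N := by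
        intro h
        apply hN.2
        rw [hMt, mem_filter, mem_range]
        exact ⟨act_lt hE h, hN.1.2, h⟩
      rw [hu]
      have hv1 : v (t + 1) N = v t N := by
        rw [hv]
        simp only
        rw [nn_succ, if_neg hna, add_zero]
      simp only
      rw [hv1]
      apply mul_le_mul_of_nonneg_left _ (hv0 t N)
      apply pow_le_pow_of_le_one (by norm_num) (by norm_num)
      apply card_le_card
      apply filter_subset_filter
      rw [hS1]
      exact subset_insert _ _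
    · have h1 : ∀ N ∈ Mt t, u (t + 1) N = ρ⁻¹ * (v t N * (1 / 2 : ℝ) ^ ((insert (f t (S t)) (S t)).filter (R N)).card) := by
        intro N hN
        rw [hMt, mem_filter] at hN
        rw [hu]
        simp only
        rw [hv]
        simp only
        rw [nn_succ, if_pos hN.2.2, hS1, pow_succ, mul_inv]
        ring
      rw [sum_congr rfl h1, ← mul_sum]
      have h2 := hf2 t (S t) (hSc t)
      calc ρ⁻¹ * ∑ N ∈ Mt t, v t N * (1 / 2 : ℝ) ^ ((insert (f t (S t)) (S t)).filter (R N)).card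
          ≤ ρ⁻¹ * (ρ * ∑ N ∈ Mt t, v t N * (1 / 2 : ℝ) ^ ((S t).filter (R N)).card) :=
            mul_le_mul_of_nonneg_left h2 (by positivity)
        _ = ∑ N ∈ Mt t, u t N := by
            rw [← mul_assoc, inv_mul_cancel₀ hρ0.ne', one_mul, hu]
  have hall : ∀ t M, 2 ^ (2 * (i₀ + t / K) + 3) ≤ M → ∑ N ∈ (range M).filter Good, u t N ≤ 1 := by
    intro t
    induction t with
    | zero =>
      intro M _
      calc ∑ N ∈ (range M).filter Good, u 0 N ≤ ∑ N ∈ range M, u 0 N :=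
            sum_le_sum_of_subset_of_nonneg (filter_subset _ _) (fun N _ _ => hu0 0 N)
        _ = ∑ N ∈ range M, 1 / (((N : ℝ) + 1) * (N + 2)) := by
            apply sum_congr rfl
            intro N _
            rw [hu, hv]
            simp only
            rw [hS0]
            simp [nn]
        _ ≤ 1 := sum_w M
    | succ t ih =>
      intro M hM
      have h1 : 2 ^ (2 * (i₀ + t / K) + 3) ≤ M := by
        refine le_trans (Nat.pow_le_pow_right (by norm_num) ?_) hM
        have : t / K ≤ (t + 1) / K := Nat.div_le_div_right (by omega)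
        omega
      exact (hmono t M h1).trans (ih M h1)
  intro N hN t
  have h1 : u t N ≤ 1 := by
    refine le_trans ?_ (hall t (max (N + 1) (2 ^ (2 * (i₀ + t / K) + 3))) (le_max_right _ _))
    apply single_le_sum (fun N _ => hu0 t N)
    rw [mem_filter, mem_range]
    exact ⟨lt_of_lt_of_le (Nat.lt_succ_self N) (le_max_left _ _), hN⟩
  rw [hu, hv] at h1
  simp only at h1
  have h2 : 0 < ((N : ℝ) + 1) * (N + 2) * ρ ^ nn E K i₀ N t := by positivity
  have h3 : 1 / (((N : ℝ) + 1) * (N + 2)) * (ρ ^ nn E K i₀ N t)⁻¹ = (((N : ℝ) + 1) * (N + 2) * ρ ^ nn E K i₀ N t)⁻¹ := by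
    rw [mul_inv, one_div]
  rw [h3, inv_mul_le_iff₀ h2, mul_one, hρ] at h1
  exact h1

end Pool.Agent.H563.AP
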