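import Pool.Agent.H563.AP.Main
import Pool.Agent.H563.AP.Step

/-!
# Thin subsets of arbitrary dense sets of primes
-/

set_option autoImplicit false

namespace Pool.Agent.H563.AP

open Finset Filter Topology
open scoped Classical

/-- `N - p = ± m s` in the scale `X` -/
def RZ (ε : ℝ) (X : ℕ) (N : ℤ) (p : ℕ) : Prop := (p : ℤ) ≠ N ∧ ∃ m s : ℕ, (N - p).natAbs = m * s ∧
  (∀ l : ℕ, l.Prime → l ∣ m → (l : ℝ) < (X : ℝ) ^ ε) ∧ s.primeFactorsList.length ≤ 2 ∧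
  ∀ q ∈ s.primeFactors, (X : ℝ) ^ (1 / 7 : ℝ) < q

/-- the same for a natural number -/
def RX (ε : ℝ) (X N p : ℕ) : Prop := RZ ε X N p

/-- the input for natural numbers -/
lemma inp (ε : ℝ) (hε : 0 < ε) : ∃ c C η : ℝ, 0 < c ∧ 0 < η ∧ ∀ X : ℕ, 2 ≤ X → ∀ A : Finset ℕ,
      (∀ p ∈ A, p.Prime ∧ p ≤ X) → (X : ℝ) ^ (1 - η) ≤ A.card →
      (((Ioc X (2 * X)).filter (fun N : ℕ => ((A.filter (RX ε X N)).card : ℝ) < c * A.card)).card : ℝ) ≤
        C * (X / (A.card * Real.log X)) := by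
  obtain ⟨c, C, η, hc, hη, h⟩ := Pool.Agent.W23.SG.sparse_sets ε hε
  refine ⟨c, C, η, hc, hη, fun X hX A hA hcard => ?_⟩
  have h0 : (((Icc (-(2 * X : ℤ)) (2 * X)).filter
      (fun N : ℤ => ((A.filter (RZ ε X N)).card : ℝ) < c * A.card)).card : ℝ) ≤
        C * (X / (A.card * Real.log X)) := by
    refine le_trans (le_of_eq ?_) (h X hX A hA hcard)
    unfold RZ
    congr!
  refine le_trans (Nat.cast_le.2 ?_) h0
  apply card_le_card_of_injOn (fun N : ℕ => (N : ℤ))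
  · intro N hN
    rw [mem_coe, mem_filter, mem_Ioc] at hN
    rw [mem_coe, mem_filter, mem_Icc]
    refine ⟨⟨?_, ?_⟩, hN.2⟩
    · show -(2 * (X : ℤ)) ≤ (N : ℤ)
      omega
    · show (N : ℤ) ≤ 2 * (X : ℤ)
      omega
  · exact Nat.cast_injective.injOn

/-- the elements up to `2 ^ i` -/
noncomputable def AA (A : Set ℕ) (i : ℕ) : Finset ℕ := (Icc 1 (2 ^ i)).filter (· ∈ A)

lemma AA_card {A : Set ℕ} (hA : ∀ p ∈ A, p.Prime) (i : ℕ) : (AA A i).card = {p | p ∈ A ∧ p ≤ 2 ^ i}.ncard := by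
  rw [← Set.ncard_coe_finset]
  congr 1
  ext p
  unfold AA
  rw [mem_coe, mem_filter, mem_Icc, Set.mem_setOf_eq]
  constructor
  · rintro ⟨⟨_, h2⟩, h3⟩
    exact ⟨h3, h2⟩
  · rintro ⟨h1, h2⟩
    exact ⟨⟨(hA p h1).one_le, h2⟩, h1⟩

/-- numbers in a dyadic interval have the right scale -/
lemma sc_eq {j N : ℕ} (h1 : 2 ^ j < N) (h2 : N ≤ 2 ^ (j + 1)) : sc N = j := by
  unfold sc
  rw [Nat.log_eq_iff (Or.inr ⟨by norm_num, by
    have : 1 ≤ 2 ^ j := Nat.one_le_pow _ _ (by norm_num)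
    omega⟩)]
  constructor <;> omega

/-- the asymptotic inequalities -/
lemma ev_large (δ K : ℝ) (hδ : 0 < δ) (hδ1 : δ ≤ 1) (hK : 0 < K) : ∀ᶠ i : ℕ in atTop,
    Real.exp (Real.log 2 * i / 2) ≤ δ / 2 * (2 : ℝ) ^ (3 / 4 * (i : ℝ)) ∧
      K * (i + 1) ≤ δ / 4 * (2 : ℝ) ^ (3 / 4 * (i : ℝ)) := by
  obtain ⟨d, hd⟩ : ∃ d, d = min δ (1 / K) := ⟨_, rfl⟩
  have hd0 : 0 < d := by rw [hd]; positivity
  have hdδ : d ≤ δ := by rw [hd]; exact min_le_left _ _
  have hdK : d ≤ 1 / K := by rw [hd]; exact min_le_right _ _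
  have hl2 := Real.log_two_gt_d9
  have tL : Tendsto (fun i : ℕ => Real.log 2 * (i : ℝ)) atTop atTop :=
    Tendsto.const_mul_atTop (by positivity) tendsto_natCast_atTop_atTop
  filter_upwards [tL.eventually (E_large d hd0 (hdδ.trans hδ1)), eventually_ge_atTop 1] with i hi hi1
  have h2 : (2 : ℝ) ^ (3 / 4 * (i : ℝ)) = Real.exp (3 / 4 * (Real.log 2 * i)) := by
    rw [Real.rpow_def_of_pos (by norm_num)]
    congr 1
    ring
  rw [h2]
  have hi1' : (1 : ℝ) ≤ i := by exact_mod_cast hi1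
  have hE := Real.exp_pos (3 / 4 * (Real.log 2 * i))
  constructor
  · have h3 : Real.log 2 * i / 2 = 1 / 2 * (Real.log 2 * i) := by ring
    rw [h3]
    refine hi.1.trans ?_
    apply mul_le_mul_of_nonneg_right _ hE.le
    linarith
  · have h4 : K * (i + 1) ≤ 16 / d * (2 * (Real.log 2 * i)) := by
      have h5 : K ≤ 1 / d := by
        rw [le_div_iff₀ hd0]
        rw [le_div_iff₀ hK] at hdK
        linarith
      have h6 : 16 / d * (2 * (Real.log 2 * i)) = 1 / d * (32 * Real.log 2 * i) := by ring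
      rw [h6]
      apply mul_le_mul h5 _ (by positivity) (by positivity)
      nlinarith
    calc K * ((i : ℝ) + 1) ≤ 16 / d * (2 * (Real.log 2 * i)) + 1 := by linarith
      _ ≤ d / 4 * Real.exp (3 / 4 * (Real.log 2 * i)) := hi.2
      _ ≤ δ / 4 * Real.exp (3 / 4 * (Real.log 2 * i)) := by
          apply mul_le_mul_of_nonneg_right _ hE.le
          linarith

lemma ev_count (C κ : ℝ) (hκ : 0 < κ) : ∀ᶠ j : ℕ in atTop, ((j : ℝ) + 1) * |C| ≤ (2 : ℝ) ^ (κ * (j : ℝ)) := by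
  have hl2 := Real.log_two_gt_d9
  have h1 := (isLittleO_pow_exp_pos_mul_atTop (k := 1) (b := Real.log 2 * κ) (by positivity)).bound
    (show (0 : ℝ) < 1 / (2 * (|C| + 1)) by positivity)
  have tN : Tendsto (fun N : ℕ => (N : ℝ)) atTop atTop := tendsto_natCast_atTop_atTop
  filter_upwards [tN.eventually h1, eventually_ge_atTop 1] with j hj hj1
  have hj1' : (1 : ℝ) ≤ j := by exact_mod_cast hj1
  rw [pow_one, Real.norm_of_nonneg (by linarith), Real.norm_of_nonneg (Real.exp_pos _).le] at hj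
  have h2 : (2 : ℝ) ^ (κ * (j : ℝ)) = Real.exp (Real.log 2 * κ * j) := by
    rw [Real.rpow_def_of_pos (by norm_num)]
    congr 1
    ring
  rw [h2]
  have hE := Real.exp_pos (Real.log 2 * κ * j)
  have h3 : (j : ℝ) * (2 * (|C| + 1)) ≤ Real.exp (Real.log 2 * κ * j) := by
    rw [one_div, ← div_eq_inv_mul, le_div_iff₀ (by positivity)] at hj
    exact hj
  have h4 : 0 ≤ |C| := abs_nonneg C
  nlinarith

end Pool.Agent.H563.AP
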